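import Pool.Agent.helper70.FL.SpecZ

set_option autoImplicit false

open MeasureTheory Set
open scoped ComplexConjugate

namespace Pool.Agent.FL

noncomputable section

theorem ZPL_conj (z : ℂ) : ‖Complex.Gammaℝ (conj z)‖ = ‖Complex.Gammaℝ z‖ := by
  rw [Complex.Gammaℝ_def, Complex.Gammaℝ_def, norm_mul, norm_mul]
  have h1 : conj z / 2 = conj (z / 2) := by
    rw [map_div₀]
    congr 1
    exact (Complex.conj_ofReal 2).symm
  have h2 : ∀ w : ℂ, ‖(Real.pi : ℂ) ^ w‖ = Real.pi ^ w.re := fun w =>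
    Complex.norm_cpow_eq_rpow_re_of_pos Real.pi_pos w
  have h3 : (-(conj z) / 2 : ℂ).re = (-z / 2).re := by simp
  rw [h1, Complex.Gamma_conj, h2, h2, RCLike.norm_conj, h3]

theorem ZPL_ls (lam : ℕ → ℝ) (hl : Coef lam) :
    ∃ C : ℝ, 0 < C ∧ ∀ s : ℂ, 2 ≤ s.re → ‖LSeries (fun m => (lam m : ℂ)) s‖ ≤ C := by
  have hs : Summable (fun m : ℕ => 1 / (m : ℝ) ^ 2) := Real.summable_one_div_nat_pow.2 (by norm_num)
  refine ⟨∑' m : ℕ, 1 / (m : ℝ) ^ 2 + 1, ?_, fun s h2 => ?_⟩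
  · have : 0 ≤ ∑' m : ℕ, 1 / (m : ℝ) ^ 2 := tsum_nonneg fun m => by positivity
    linarith
  · have h3 : ‖∑' m : ℕ, LSeries.term (fun m => (lam m : ℂ)) s m‖ ≤ ∑' m : ℕ, 1 / (m : ℝ) ^ 2 := by
      refine tsum_of_norm_bounded hs.hasSum fun m => ?_
      rw [LSeries.norm_term_eq]
      split_ifs with h
      · positivity
      · have hm : (1 : ℝ) ≤ m := by exact_mod_cast Nat.one_le_iff_ne_zero.2 h
        have h4 : (m : ℝ) ^ 2 ≤ (m : ℝ) ^ s.re := by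
          rw [← Real.rpow_natCast]
          exact Real.rpow_le_rpow_of_exponent_le hm (by exact_mod_cast h2)
        have h5 : ‖(lam m : ℂ)‖ ≤ 1 := by
          rw [Complex.norm_real]
          exact hl.le m
        have h6 : (0 : ℝ) < (m : ℝ) ^ 2 := by positivity
        exact div_le_div₀ zero_le_one h5 h6 h4
    have h4 : LSeries (fun m => (lam m : ℂ)) s = ∑' m : ℕ, LSeries.term (fun m => (lam m : ℂ)) s m := rfl
    rw [h4]
    linarith

theorem ZPL_exp (hZLA : ZLA_stmt) (hZGI : ZGI_stmt) : ∀ (n : ℕ) (μ : Fin n → ℝ) (k : ℝ → ℝ)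
    (lam : ℕ → ℝ) (q : ℕ), Ker μ k → Coef lam → 1 ≤ q → FE k lam q → ∀ A : ℝ, ∃ C : ℝ, 0 < C ∧
      ∀ s : ℂ, |s.re| ≤ A → ‖Lf μ k lam q s‖ ≤ C * Real.exp (C * |s.im|) := by
  intro n μ k lam q hk hl hq hfe A
  obtain ⟨-, -, -, -, hM⟩ := hZLA n μ k lam q hk hl hq hfe
  obtain ⟨M, hM⟩ := hM A
  choose C hC hCj using fun j : Fin n => hZGI (A + μ j)
  have hq' : (1 : ℝ) ≤ q := by exact_mod_cast hq
  have hP : 0 < ∏ j, C j := Finset.prod_pos fun j _ => hC j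
  have hS : 0 ≤ ∑ j, C j := Finset.sum_nonneg fun j _ => (hC j).le
  refine ⟨|M| * (q : ℝ) ^ (A / 2) * (∏ j, C j) + (∑ j, C j) + 1, by positivity, fun s hs => ?_⟩
  have h1 : ‖Lam k lam q s‖ ≤ |M| := (hM s hs).trans (le_abs_self M)
  have h2 : ‖(q : ℂ) ^ (-s / 2)‖ ≤ (q : ℝ) ^ (A / 2) := by
    rw [Complex.norm_natCast_cpow_of_pos (by omega)]
    refine Real.rpow_le_rpow_of_exponent_le hq' ?_
    have h3 : (-s / 2 : ℂ).re = -s.re / 2 := by simp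
    rw [h3]
    have := (abs_le.1 hs).1
    linarith
  have h3 : ‖∏ j, (Complex.Gammaℝ (s + (μ j : ℂ)))⁻¹‖ ≤ (∏ j, C j) * Real.exp ((∑ j, C j) * |s.im|) := by
    rw [norm_prod, Finset.sum_mul, Real.exp_sum, ← Finset.prod_mul_distrib]
    refine Finset.prod_le_prod (fun j _ => norm_nonneg _) fun j _ => ?_
    have h4 := hCj j (s + (μ j : ℂ)) (by
      rw [Complex.add_re, Complex.ofReal_re]
      refine (abs_add_le _ _).trans ?_
      rw [abs_of_nonneg (hk.pos j)]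
      linarith)
    have h5 : (s + (μ j : ℂ)).im = s.im := by simp
    rwa [h5] at h4
  have h4 : Lf μ k lam q s = Lam k lam q s * (q : ℂ) ^ (-s / 2) * ∏ j, (Complex.Gammaℝ (s + (μ j : ℂ)))⁻¹ :=
    rfl
  rw [h4, norm_mul, norm_mul]
  have h5 : Real.exp ((∑ j, C j) * |s.im|) ≤
      Real.exp ((|M| * (q : ℝ) ^ (A / 2) * (∏ j, C j) + (∑ j, C j) + 1) * |s.im|) := by
    refine Real.exp_le_exp.2 (mul_le_mul_of_nonneg_right ?_ (abs_nonneg _))
    have : 0 ≤ |M| * (q : ℝ) ^ (A / 2) * (∏ j, C j) := by positivity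
    linarith
  calc ‖Lam k lam q s‖ * ‖(q : ℂ) ^ (-s / 2)‖ * ‖∏ j, (Complex.Gammaℝ (s + (μ j : ℂ)))⁻¹‖
      ≤ |M| * (q : ℝ) ^ (A / 2) * ((∏ j, C j) * Real.exp ((∑ j, C j) * |s.im|)) := by
        refine mul_le_mul (mul_le_mul h1 h2 (norm_nonneg _) (abs_nonneg _)) h3 (norm_nonneg _) ?_
        positivity
    _ = (|M| * (q : ℝ) ^ (A / 2) * (∏ j, C j)) * Real.exp ((∑ j, C j) * |s.im|) := by ring
    _ ≤ (|M| * (q : ℝ) ^ (A / 2) * (∏ j, C j) + (∑ j, C j) + 1) * Real.exp ((∑ j, C j) * |s.im|) := by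
        refine mul_le_mul_of_nonneg_right ?_ (Real.exp_pos _).le
        linarith
    _ ≤ _ := by
        refine mul_le_mul_of_nonneg_left h5 ?_
        positivity

theorem ZPL_left (hZLF : ZLF_stmt) (hZGR : ZGR_stmt) : ∀ (n : ℕ) (μ : Fin n → ℝ) (k : ℝ → ℝ)
    (lam : ℕ → ℝ) (q : ℕ), Ker μ k → Coef lam → 1 ≤ q → FE k lam q → ∀ N : ℕ, 2 ≤ N →
      ∃ C : ℝ, 0 < C ∧ ∀ s : ℂ, s.re = -((N : ℝ) - 1 / 2) →
        ‖Lf μ k lam q s‖ ≤ C * (1 + |s.im|) ^ (N * n) := by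
  intro n μ k lam q hk hl hq hfe N hN
  obtain ⟨-, hser, hfeq, -⟩ := hZLF n μ k lam q hk hl hq hfe
  obtain ⟨C1, hC1, hls⟩ := ZPL_ls lam hl
  have hN' : (2 : ℝ) ≤ N := by exact_mod_cast hN
  have hq' : (0 : ℝ) < q := by exact_mod_cast hq
  have hμ := hk.pos
  refine ⟨(q : ℝ) ^ (((N : ℝ) + 1 / 2) / 2) / (q : ℝ) ^ (-((N : ℝ) - 1 / 2) / 2) * C1 *
    ∏ j, (3 * (N : ℝ) + μ j + 1) ^ N, ?_, fun s hs => ?_⟩
  · have h1 : 0 < ∏ j, (3 * (N : ℝ) + μ j + 1) ^ N :=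
      Finset.prod_pos fun j _ => by have := hμ j; positivity
    positivity
  have hq1 : ‖(q : ℂ) ^ (s / 2)‖ = (q : ℝ) ^ (-((N : ℝ) - 1 / 2) / 2) := by
    rw [Complex.norm_natCast_cpow_of_pos (by omega)]
    have h3 : (s / 2 : ℂ).re = s.re / 2 := by simp
    rw [h3, hs]
  have hq2 : ‖(q : ℂ) ^ ((1 - s) / 2)‖ = (q : ℝ) ^ (((N : ℝ) + 1 / 2) / 2) := by
    rw [Complex.norm_natCast_cpow_of_pos (by omega)]
    have h3 : ((1 - s) / 2 : ℂ).re = (1 - s.re) / 2 := by simp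
    rw [h3, hs]
    congr 1
    ring
  have hre : (1 - s).re = (N : ℝ) + 1 / 2 := by
    rw [Complex.sub_re, hs, Complex.one_re]
    ring
  have hL : ‖Lf μ k lam q (1 - s)‖ ≤ C1 := by
    rw [hser (1 - s) (by rw [hre]; linarith)]
    exact hls _ (by rw [hre]; linarith)
  have h1 := congrArg norm (hfeq s)
  rw [norm_mul, norm_mul, norm_mul, norm_mul, hq1, hq2, norm_prod, norm_prod] at h1
  have hne : ∀ j, Complex.Gammaℝ (1 - s + (μ j : ℂ)) ≠ 0 := by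
    intro j
    refine Complex.Gammaℝ_ne_zero_of_re_pos ?_
    rw [Complex.add_re, hre, Complex.ofReal_re]
    have := hμ j
    linarith
  have h2 : (∏ j, ‖(Complex.Gammaℝ (1 - s + (μ j : ℂ)))⁻¹‖) * (∏ j, ‖Complex.Gammaℝ (1 - s + (μ j : ℂ))‖) = 1 := by
    rw [← Finset.prod_mul_distrib]
    refine Finset.prod_eq_one fun j _ => ?_
    rw [norm_inv, inv_mul_cancel₀ (norm_ne_zero_iff.2 (hne j))]
  have h3 : (∏ j, ‖(Complex.Gammaℝ (s + (μ j : ℂ)))⁻¹‖) * (∏ j, ‖Complex.Gammaℝ (1 - s + (μ j : ℂ))‖) ≤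
      (∏ j, (3 * (N : ℝ) + μ j + 1) ^ N) * (1 + |s.im|) ^ (N * n) := by
    have h4 : (∏ j : Fin n, (3 * (N : ℝ) + μ j + 1) ^ N) * (1 + |s.im|) ^ (N * n) =
        ∏ j : Fin n, ((3 * (N : ℝ) + μ j + 1) * (1 + |s.im|)) ^ N := by
      simp_rw [mul_pow]
      rw [Finset.prod_mul_distrib, Finset.prod_const, Finset.card_univ, Fintype.card_fin, ← pow_mul]
    rw [h4, ← Finset.prod_mul_distrib]
    refine Finset.prod_le_prod (fun j _ => by positivity) fun j _ => ?_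
    have h5 : conj (1 - s + (μ j : ℂ)) = s + (μ j : ℂ) + 2 * (N : ℂ) := by
      apply Complex.ext
      · have : (conj (1 - s + (μ j : ℂ))).re = 1 - s.re + μ j := by simp
        rw [this]
        have : (s + (μ j : ℂ) + 2 * (N : ℂ)).re = s.re + μ j + 2 * N := by simp
        rw [this, hs]
        ring
      · simp
    have h6 : ‖Complex.Gammaℝ (1 - s + (μ j : ℂ))‖ = ‖Complex.Gammaℝ (s + (μ j : ℂ) + 2 * (N : ℂ))‖ := by
      rw [← ZPL_conj, h5]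
    rw [h6, mul_comm]
    refine (hZGR N (s + (μ j : ℂ))).trans ?_
    refine pow_le_pow_left₀ (by positivity) ?_ N
    have h7 : ‖s + (μ j : ℂ)‖ ≤ (N : ℝ) + μ j + |s.im| := by
      refine (Complex.norm_le_abs_re_add_abs_im _).trans ?_
      have h8 : (s + (μ j : ℂ)).re = s.re + μ j := by simp
      have h9 : (s + (μ j : ℂ)).im = s.im := by simp
      rw [h8, h9, hs]
      have h10 : |-((N : ℝ) - 1 / 2) + μ j| ≤ (N : ℝ) + μ j := by
        rw [abs_le]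
        have := hμ j
        constructor <;> linarith
      linarith
    have h8 := abs_nonneg s.im
    have h9 := hμ j
    nlinarith [mul_nonneg h9 h8, mul_nonneg (by linarith : (0 : ℝ) ≤ N) h8]
  have hqp : 0 < (q : ℝ) ^ (-((N : ℝ) - 1 / 2) / 2) := Real.rpow_pos_of_pos hq' _
  have hqp2 : 0 < (q : ℝ) ^ (((N : ℝ) + 1 / 2) / 2) := Real.rpow_pos_of_pos hq' _
  have h4 : (q : ℝ) ^ (-((N : ℝ) - 1 / 2) / 2) * ‖Lf μ k lam q s‖ =
      (q : ℝ) ^ (((N : ℝ) + 1 / 2) / 2) * ‖Lf μ k lam q (1 - s)‖ *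
        ((∏ j, ‖(Complex.Gammaℝ (s + (μ j : ℂ)))⁻¹‖) * (∏ j, ‖Complex.Gammaℝ (1 - s + (μ j : ℂ))‖)) := by
    calc (q : ℝ) ^ (-((N : ℝ) - 1 / 2) / 2) * ‖Lf μ k lam q s‖
        = (q : ℝ) ^ (-((N : ℝ) - 1 / 2) / 2) * ‖Lf μ k lam q s‖ *
          ((∏ j, ‖(Complex.Gammaℝ (1 - s + (μ j : ℂ)))⁻¹‖) * (∏ j, ‖Complex.Gammaℝ (1 - s + (μ j : ℂ))‖)) := by
          rw [h2, mul_one]
      _ = _ := by
          rw [← mul_assoc, h1]
          ring
  have h5 : (q : ℝ) ^ (-((N : ℝ) - 1 / 2) / 2) * ‖Lf μ k lam q s‖ ≤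
      (q : ℝ) ^ (((N : ℝ) + 1 / 2) / 2) * C1 *
        ((∏ j, (3 * (N : ℝ) + μ j + 1) ^ N) * (1 + |s.im|) ^ (N * n)) := by
    rw [h4]
    refine mul_le_mul (mul_le_mul_of_nonneg_left hL hqp2.le) h3 (by positivity) (by positivity)
  have h6 : ‖Lf μ k lam q s‖ ≤ (q : ℝ) ^ (((N : ℝ) + 1 / 2) / 2) * C1 *
        ((∏ j, (3 * (N : ℝ) + μ j + 1) ^ N) * (1 + |s.im|) ^ (N * n)) / (q : ℝ) ^ (-((N : ℝ) - 1 / 2) / 2) := by
    rw [le_div_iff₀ hqp, mul_comm]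
    exact h5
  refine h6.trans (le_of_eq ?_)
  field_simp

theorem ZPL (hZLA : ZLA_stmt) (hZLF : ZLF_stmt) (hZGI : ZGI_stmt) (hZGR : ZGR_stmt) : ZPL_stmt := by
  intro n μ k lam q hk hl hq hfe A
  obtain ⟨hent, hser, -, -⟩ := hZLF n μ k lam q hk hl hq hfe
  obtain ⟨N, hN2, hNA⟩ : ∃ N : ℕ, 2 ≤ N ∧ |A| + 2 ≤ (N : ℝ) :=
    ⟨⌈|A|⌉₊ + 2, by omega, by push_cast; linarith [Nat.le_ceil |A|]⟩
  have hN' : (2 : ℝ) ≤ N := by exact_mod_cast hN2
  obtain ⟨C2, hC2, hleft⟩ := ZPL_left hZLF hZGR n μ k lam q hk hl hq hfe N hN2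
  obtain ⟨C3, hC3, hls⟩ := ZPL_ls lam hl
  obtain ⟨C4, hC4, hexp⟩ := ZPL_exp hZLA hZGI n μ k lam q hk hl hq hfe (N : ℝ)
  set G : ℂ → ℂ := fun s => Lf μ k lam q s * ((s - (2 * (N : ℂ) + 1))⁻¹) ^ (N * n) with hG
  have hre : ∀ s : ℂ, (s - (2 * (N : ℂ) + 1)).re = s.re - (2 * N + 1) := by intro s; simp
  have him : ∀ s : ℂ, (s - (2 * (N : ℂ) + 1)).im = s.im := by intro s; simp
  have hfar : ∀ s : ℂ, s.re ≤ N → 1 ≤ ‖s - (2 * (N : ℂ) + 1)‖ := by
    intro s hs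
    refine le_trans ?_ (Complex.abs_re_le_norm _)
    rw [hre, abs_of_nonpos (by linarith)]
    linarith
  have hfar0 : ∀ s : ℂ, s.re ≤ N → s - (2 * (N : ℂ) + 1) ≠ 0 := by
    intro s hs h0
    have := hfar s hs
    rw [h0, norm_zero] at this
    linarith
  have hclos : closure (Complex.re ⁻¹' Ioo (-((N : ℝ) - 1 / 2)) (N : ℝ)) ⊆ {s : ℂ | s.re ≤ N} := by
    refine closure_minimal (fun s hs => hs.2.le) (isClosed_le Complex.continuous_re continuous_const)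
  have hd : DiffContOnCl ℂ G (Complex.re ⁻¹' Ioo (-((N : ℝ) - 1 / 2)) (N : ℝ)) := by
    refine DifferentiableOn.diffContOnCl fun s hs => DifferentiableAt.differentiableWithinAt ?_
    have hd1 : DifferentiableAt ℂ (fun s : ℂ => s - (2 * (N : ℂ) + 1)) s :=
      differentiableAt_id.sub_const _
    have hd2 : DifferentiableAt ℂ (fun s : ℂ => (s - (2 * (N : ℂ) + 1))⁻¹) s :=
      hd1.fun_inv (hfar0 s (hclos hs))
    exact (hent s).fun_mul (hd2.fun_pow _)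
  have hinv : ∀ s : ℂ, s.re ≤ N → ‖((s - (2 * (N : ℂ) + 1))⁻¹) ^ (N * n)‖ ≤ 1 := by
    intro s hs
    rw [norm_pow, norm_inv]
    exact pow_le_one₀ (by positivity) (inv_le_one_of_one_le₀ (hfar s hs))
  have hba : (0 : ℝ) < (N : ℝ) - -((N : ℝ) - 1 / 2) := by linarith
  have hc : 0 < Real.pi / ((N : ℝ) - -((N : ℝ) - 1 / 2)) / 2 := by positivity
  have hmain : ∀ s : ℂ, -((N : ℝ) - 1 / 2) ≤ s.re → s.re ≤ N → ‖G s‖ ≤ C2 * 2 ^ (N * n) + C3 := by
    intro s h1 h2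
    refine PhragmenLindelof.vertical_strip hd ?_ ?_ ?_ h1 h2
    · refine ⟨Real.pi / ((N : ℝ) - -((N : ℝ) - 1 / 2)) / 2, half_lt_self (by positivity),
        C4 / (Real.pi / ((N : ℝ) - -((N : ℝ) - 1 / 2)) / 2), ?_⟩
      refine Asymptotics.IsBigO.of_bound C4 ?_
      refine Filter.Eventually.filter_mono inf_le_right (Filter.eventually_principal.2 fun z hz => ?_)
      have hz1 : z.re ≤ N := hz.2.le
      have hz2 : |z.re| ≤ (N : ℝ) := by
        rw [abs_le]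
        have := hz.1
        constructor <;> linarith
      have h3 : ‖G z‖ ≤ C4 * Real.exp (C4 * |z.im|) := by
        rw [hG]
        simp only [norm_mul]
        calc ‖Lf μ k lam q z‖ * ‖((z - (2 * (N : ℂ) + 1))⁻¹) ^ (N * n)‖
            ≤ ‖Lf μ k lam q z‖ * 1 := mul_le_mul_of_nonneg_left (hinv z hz1) (norm_nonneg _)
          _ ≤ _ := by rw [mul_one]; exact hexp z hz2
      refine h3.trans (mul_le_mul_of_nonneg_left ?_ hC4.le)
      rw [Real.norm_eq_abs, abs_of_pos (Real.exp_pos _)]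
      refine Real.exp_le_exp.2 ?_
      set c := Real.pi / ((N : ℝ) - -((N : ℝ) - 1 / 2)) / 2 with hcdef
      have h4 : c * |z.im| ≤ Real.exp (c * |z.im|) := by
        have := Real.add_one_le_exp (c * |z.im|)
        linarith
      calc C4 * |z.im| = C4 / c * (c * |z.im|) := by field_simp
        _ ≤ C4 / c * Real.exp (c * |z.im|) := mul_le_mul_of_nonneg_left h4 (by positivity)
    · intro z hz
      have h3 := hleft z hz
      have h4 : 1 + |z.im| ≤ 2 * ‖z - (2 * (N : ℂ) + 1)‖ := by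
        have h5 := hfar z (by rw [hz]; linarith)
        have h6 := Complex.abs_im_le_norm (z - (2 * (N : ℂ) + 1))
        rw [him] at h6
        linarith
      have h5 : 0 < ‖z - (2 * (N : ℂ) + 1)‖ := lt_of_lt_of_le one_pos (hfar z (by rw [hz]; linarith))
      rw [hG]
      simp only [norm_mul, norm_pow, norm_inv]
      rw [inv_pow, ← div_eq_mul_inv]
      refine (div_le_iff₀ (by positivity)).2 ?_
      refine h3.trans ?_
      have h6 : (1 + |z.im|) ^ (N * n) ≤ 2 ^ (N * n) * ‖z - (2 * (N : ℂ) + 1)‖ ^ (N * n) := by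
        rw [← mul_pow]
        exact pow_le_pow_left₀ (by positivity) h4 _
      calc C2 * (1 + |z.im|) ^ (N * n) ≤ C2 * (2 ^ (N * n) * ‖z - (2 * (N : ℂ) + 1)‖ ^ (N * n)) :=
            mul_le_mul_of_nonneg_left h6 hC2.le
        _ = C2 * 2 ^ (N * n) * ‖z - (2 * (N : ℂ) + 1)‖ ^ (N * n) := by ring
        _ ≤ (C2 * 2 ^ (N * n) + C3) * ‖z - (2 * (N : ℂ) + 1)‖ ^ (N * n) :=
            mul_le_mul_of_nonneg_right (by linarith) (by positivity)
    · intro z hz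
      have h3 : ‖Lf μ k lam q z‖ ≤ C3 := by
        rw [hser z (by rw [hz]; linarith)]
        exact hls z (by rw [hz]; exact hN')
      rw [hG]
      simp only [norm_mul]
      calc ‖Lf μ k lam q z‖ * ‖((z - (2 * (N : ℂ) + 1))⁻¹) ^ (N * n)‖
          ≤ ‖Lf μ k lam q z‖ * 1 := mul_le_mul_of_nonneg_left (hinv z hz.le) (norm_nonneg _)
        _ ≤ C3 := by rw [mul_one]; exact h3
        _ ≤ C2 * 2 ^ (N * n) + C3 := by
          have : 0 < C2 * 2 ^ (N * n) := by positivity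
          linarith
  refine ⟨(C2 * 2 ^ (N * n) + C3) * (3 * N + 1) ^ (N * n) + ((N * n : ℕ) : ℝ), fun s hs => ?_⟩
  have hA := (hs.trans (le_abs_self A))
  have hs1 : -((N : ℝ) - 1 / 2) ≤ s.re := by
    have := (abs_le.1 hA).1
    linarith
  have hs2 : s.re ≤ N := by
    have := (abs_le.1 hA).2
    linarith
  have h1 := hmain s hs1 hs2
  have h2 : Lf μ k lam q s = G s * (s - (2 * (N : ℂ) + 1)) ^ (N * n) := by
    rw [hG]
    simp only
    rw [mul_assoc, ← mul_pow, inv_mul_cancel₀ (hfar0 s hs2), one_pow, mul_one]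
  have h3 : ‖s - (2 * (N : ℂ) + 1)‖ ≤ (3 * N + 1) * (1 + |s.im|) := by
    refine (Complex.norm_le_abs_re_add_abs_im _).trans ?_
    rw [hre, him, abs_of_nonpos (by linarith)]
    have := abs_nonneg s.im
    nlinarith
  have hK : 0 ≤ (C2 * 2 ^ (N * n) + C3) := by positivity
  rw [h2, norm_mul, norm_pow]
  have h4 : (1 : ℝ) ≤ 1 + |s.im| := by linarith [abs_nonneg s.im]
  calc ‖G s‖ * ‖s - (2 * (N : ℂ) + 1)‖ ^ (N * n)
      ≤ (C2 * 2 ^ (N * n) + C3) * ((3 * N + 1) * (1 + |s.im|)) ^ (N * n) :=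
        mul_le_mul h1 (pow_le_pow_left₀ (norm_nonneg _) h3 _) (by positivity) hK
    _ = ((C2 * 2 ^ (N * n) + C3) * (3 * N + 1) ^ (N * n)) * (1 + |s.im|) ^ ((N * n : ℕ) : ℝ) := by
        rw [mul_pow, Real.rpow_natCast]
        ring
    _ ≤ ((C2 * 2 ^ (N * n) + C3) * (3 * N + 1) ^ (N * n) + ((N * n : ℕ) : ℝ)) *
        (1 + |s.im|) ^ ((C2 * 2 ^ (N * n) + C3) * (3 * N + 1) ^ (N * n) + ((N * n : ℕ) : ℝ)) := by
        refine mul_le_mul ?_ (Real.rpow_le_rpow_of_exponent_le h4 ?_) (by positivity) (by positivity)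
        · have : (0 : ℝ) ≤ ((N * n : ℕ) : ℝ) := Nat.cast_nonneg _
          linarith
        · have : 0 ≤ (C2 * 2 ^ (N * n) + C3) * (3 * (N : ℝ) + 1) ^ (N * n) := by positivity
          linarith

end

end Pool.Agent.FL
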