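import Pool.Agent.helper90.FL.Spec

/-!
# Project FL (MP_fe76a7_co), row TCH (helper67)
-/

set_option autoImplicit false

namespace Pool.Agent.helper90.FL

open Finset Polynomial
open scoped Classical

theorem TCH (h : CLS_stmt) : TCH_stmt := by
  intro V E _ s t
  have key : ∀ (n : ℕ) (D I : Finset E), I.card = n + 1 → Ind s t D I →
      n + 2 ≤ (tc s t D I).ncard := by
    intro n
    induction n with
    | zero =>
      intro D I hI hInd
      obtain ⟨e, he⟩ : I.Nonempty := Finset.card_pos.1 (by omega)
      obtain ⟨-, -, -, -, c5⟩ := h V E s t D
      have hnL : ¬ Lp s t D e := by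
        intro hL
        apply hInd e he
        intro S hS
        exact hL S fun x hx => hS x (Finset.mem_union_left _ hx)
      have hab : cls s t D (s e) ≠ cls s t D (t e) := fun h' => hnL ((c5 e).1 h')
      have hsub : ({cls s t D (s e), cls s t D (t e)} : Set (Set V)) ⊆ tc s t D I := by
        intro T hT
        rcases hT with hT | hT
        · exact ⟨e, he, Or.inl hT⟩
        · exact ⟨e, he, Or.inr hT⟩
      have h2 := Set.ncard_le_ncard hsub (Set.toFinite _)
      rw [Set.ncard_pair hab] at h2
      omega
    | succ n ih =>
      intro D I hI hInd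
      obtain ⟨e, he⟩ : I.Nonempty := Finset.card_pos.1 (by omega)
      obtain ⟨c1, -, -, -, c5⟩ := h V E s t D
      obtain ⟨-, -, d3, -, -⟩ := h V E s t (insert e D)
      have hnL : ¬ Lp s t D e := by
        intro hL
        apply hInd e he
        intro S hS
        exact hL S fun x hx => hS x (Finset.mem_union_left _ hx)
      have hab : cls s t D (s e) ≠ cls s t D (t e) := fun h' => hnL ((c5 e).1 h')
      have hI' : (I.erase e).card = n + 1 := by
        rw [Finset.card_erase_of_mem he]
        omega
      have hInd' : Ind s t (insert e D) (I.erase e) := by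
        intro e' he' hL
        obtain ⟨hne, he'I⟩ := Finset.mem_erase.1 he'
        apply hInd e' he'I
        intro S hS
        apply hL S
        intro x hx
        apply hS x
        rcases Finset.mem_union.1 hx with hx | hx
        · rcases Finset.mem_insert.1 hx with rfl | hx
          · exact Finset.mem_union_right _ (Finset.mem_erase.2 ⟨fun h' => hne h'.symm, he⟩)
          · exact Finset.mem_union_left _ hx
        · obtain ⟨hx1, hx2⟩ := Finset.mem_erase.1 hx
          exact Finset.mem_union_right _ (Finset.mem_erase.2 ⟨hx1, (Finset.mem_erase.1 hx2).2⟩)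
      have hih := ih (insert e D) (I.erase e) hI' hInd'
      -- the map on the classes
      set g : Set V → Set V := fun T => ⋃ v ∈ T, cls s t (insert e D) v with hg
      have hsubcls : ∀ v v', v' ∈ cls s t D v → v' ∈ cls s t (insert e D) v := by
        intro v v' hv S hS
        exact hv S fun x hx => hS x (Finset.mem_insert_of_mem hx)
      have hgc : ∀ v, g (cls s t D v) = cls s t (insert e D) v := by
        intro v
        apply Set.Subset.antisymm
        · intro w hw
          rw [hg] at hw
          simp only [Set.mem_iUnion] at hw
          obtain ⟨v', hv', hw'⟩ := hw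
          rw [d3 v v' (hsubcls v v' hv')] at hw'
          exact hw'
        · intro w hw
          rw [hg]
          simp only [Set.mem_iUnion]
          exact ⟨v, c1 v, hw⟩
      have hM : cls s t (insert e D) (s e) = cls s t (insert e D) (t e) := by
        refine (d3 (t e) (s e) ?_)
        intro S hS
        exact (hS e (Finset.mem_insert_self _ _)).symm
      set a := cls s t D (s e) with ha
      set b := cls s t D (t e) with hb
      set M := cls s t (insert e D) (s e) with hMdef
      have hsub : tc s t (insert e D) (I.erase e) \ {M} ⊆ g '' (tc s t D I \ {a, b}) := by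
        rintro T ⟨⟨e', he', hT⟩, hTM⟩
        have hTM' : T ≠ M := hTM
        have he'I : e' ∈ I := (Finset.mem_erase.1 he').2
        have aux : ∀ v, (cls s t D v ∈ tc s t D I) → T = cls s t (insert e D) v →
            T ∈ g '' (tc s t D I \ {a, b}) := by
          intro v hv hTv
          refine ⟨cls s t D v, ⟨hv, ?_⟩, (hgc v).trans hTv.symm⟩
          intro hmem
          apply hTM'
          rcases hmem with hmem | hmem
          · rw [hTv, ← hgc v, hmem, ha, hgc]
          · have hmem' : cls s t D v = b := hmem
            rw [hTv, ← hgc v, hmem', hb, hgc, ← hM]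
        rcases hT with hT | hT
        · exact aux (s e') ⟨e', he'I, Or.inl rfl⟩ hT
        · exact aux (t e') ⟨e', he'I, Or.inr rfl⟩ hT
      have hpair : ({a, b} : Set (Set V)) ⊆ tc s t D I := by
        intro T hT
        rcases hT with hT | hT
        · exact ⟨e, he, Or.inl hT⟩
        · exact ⟨e, he, Or.inr hT⟩
      have e1 : (tc s t (insert e D) (I.erase e) \ {M}).ncard ≤ (tc s t D I \ {a, b}).ncard :=
        (Set.ncard_le_ncard hsub (Set.toFinite _)).trans (Set.ncard_image_le (Set.toFinite _))
      have e2 : (tc s t D I \ {a, b}).ncard + ({a, b} : Set (Set V)).ncard = (tc s t D I).ncard :=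
        Set.ncard_sdiff_add_ncard_of_subset hpair (Set.toFinite _)
      have e3 : (tc s t (insert e D) (I.erase e)).ncard ≤
          (tc s t (insert e D) (I.erase e) \ {M}).ncard + 1 := by
        have := Set.ncard_le_ncard_sdiff_add_ncard (tc s t (insert e D) (I.erase e)) {M}
          (Set.toFinite _)
        rwa [Set.ncard_singleton] at this
      rw [Set.ncard_pair hab] at e2
      omega
  intro D I hne hInd
  have hpos : 0 < I.card := hne.card_pos
  have := key (I.card - 1) D I (by omega) hInd
  omega

end Pool.Agent.helper90.FL
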